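import Pool.Agent.Run7.h420.TM.Stm

/-!
Project TM: the group theoretic pieces NORM, FG, NOZ, ONTO.
-/

set_option autoImplicit false

namespace Pool.Agent.Run7.h420.TM

open MeasureTheory Filter Topology Set

theorem t_NORM : S_NORM := by
  intro G _ hS K hK
  have hN : Subgroup.normalizer (K : Set G) ≠ ⊤ := fun h => hK (Subgroup.normalizer_eq_top_iff.mp h)
  have hbot : K ≠ ⊥ := by
    rintro rfl
    exact hK inferInstance
  rcases hS _ hN with hfin | hcyc
  · refine ⟨(Subgroup.normalizer (K : Set G) : Set G), Set.toFinite _, fun c hc => ?_⟩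
    refine ⟨c, ?_, 1, K.one_mem, by simp⟩
    show c ∈ Subgroup.normalizer (K : Set G)
    rw [Subgroup.mem_normalizer_iff]
    exact hc
  · obtain ⟨a, ha⟩ := hcyc.exists_generator
    obtain ⟨k0, hk0, hk1⟩ : ∃ k0 : G, k0 ∈ K ∧ k0 ≠ 1 := by
      obtain ⟨x, hx⟩ := Subgroup.ne_bot_iff_exists_ne_one.mp hbot
      exact ⟨x.1, x.2, fun h => hx (Subtype.ext h)⟩
    have hkN : k0 ∈ Subgroup.normalizer (K : Set G) := Subgroup.le_normalizer hk0
    obtain ⟨j, hj⟩ := Subgroup.mem_zpowers_iff.mp (ha ⟨k0, hkN⟩)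
    have hj' : (a : G) ^ j = k0 := by
      have := congrArg Subtype.val hj
      simpa using this
    have hj0 : j ≠ 0 := by
      rintro rfl
      exact hk1 (by simpa using hj'.symm)
    set m : ℕ := j.natAbs with hm
    have hmpos : 0 < m := Int.natAbs_pos.mpr hj0
    have ham : (a : G) ^ m ∈ K := by
      rcases Int.natAbs_eq j with h | h
      · rw [← hm] at h
        rw [← zpow_natCast, ← h, hj']
        exact hk0
      · rw [← hm] at h
        have : (a : G) ^ m = k0⁻¹ := by
          rw [← hj', h, zpow_neg, inv_inv, zpow_natCast]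
        rw [this]
        exact K.inv_mem hk0
    refine ⟨(fun i : ℕ => (a : G) ^ i) '' (Set.Iio m), (Set.finite_Iio m).image _, fun c hc => ?_⟩
    have hcN : c ∈ Subgroup.normalizer (K : Set G) := by
      rw [Subgroup.mem_normalizer_iff]
      exact hc
    obtain ⟨i, hi⟩ := Subgroup.mem_zpowers_iff.mp (ha ⟨c, hcN⟩)
    have hi' : (a : G) ^ i = c := by
      have := congrArg Subtype.val hi
      simpa using this
    have hm0 : (m : ℤ) ≠ 0 := by exact_mod_cast hmpos.ne'
    have hr : 0 ≤ i % m := Int.emod_nonneg _ hm0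
    have hr2 : i % m < m := Int.emod_lt_of_pos _ (by exact_mod_cast hmpos)
    refine ⟨(a : G) ^ (i % m).toNat, ⟨(i % m).toNat, ?_, rfl⟩, ((a : G) ^ m) ^ (i / m),
      K.zpow_mem ham _, ?_⟩
    · show (i % m).toNat < m
      omega
    · rw [← hi', ← zpow_natCast (a : G) (i % m).toNat, Int.toNat_of_nonneg hr,
        ← zpow_natCast (a : G) m, ← zpow_mul, ← zpow_add, Int.emod_add_mul_ediv]

theorem t_FG : S_FG := by
  intro G _ hS K hK
  rcases hS K hK with hfin | hcyc
  · have : Fintype K := Fintype.ofFinite K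
    classical
    refine ⟨(Set.toFinite (K : Set G)).toFinset, ?_⟩
    rw [Set.Finite.coe_toFinset]
    exact Subgroup.closure_eq K
  · obtain ⟨a, ha⟩ := hcyc.exists_generator
    refine ⟨{(a : G)}, ?_⟩
    rw [Finset.coe_singleton, ← Subgroup.zpowers_eq_closure]
    apply le_antisymm
    · rw [Subgroup.zpowers_le]
      exact a.2
    · intro x hx
      obtain ⟨i, hi⟩ := Subgroup.mem_zpowers_iff.mp (ha ⟨x, hx⟩)
      exact Subgroup.mem_zpowers_iff.mpr ⟨i, by simpa using congrArg Subtype.val hi⟩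

/-- rotation by a unit complex number, complex linear -/
noncomputable def rot (z : Circle) : ℂ ≃ₗᵢ[ℂ] ℂ where
  toFun x := (z : ℂ) * x
  map_add' x y := mul_add _ _ _
  map_smul' c x := by
    simp only [smul_eq_mul, RingHom.id_apply]
    ring
  invFun x := ((z⁻¹ : Circle) : ℂ) * x
  left_inv x := by
    show ((z⁻¹ : Circle) : ℂ) * ((z : ℂ) * x) = x
    rw [← mul_assoc, ← Circle.coe_mul, inv_mul_cancel, Circle.coe_one, one_mul]
  right_inv x := by
    show (z : ℂ) * (((z⁻¹ : Circle) : ℂ) * x) = x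
    rw [← mul_assoc, ← Circle.coe_mul, mul_inv_cancel, Circle.coe_one, one_mul]
  norm_map' x := by
    show ‖(z : ℂ) * x‖ = ‖x‖
    rw [norm_mul, Circle.norm_coe, one_mul]

theorem rot_apply (z : Circle) (x : ℂ) : rot z x = (z : ℂ) * x := rfl

noncomputable def rotHom : Circle →* (ℂ ≃ₗᵢ[ℂ] ℂ) where
  toFun := rot
  map_one' := by
    ext x
    simp [rot_apply]
  map_mul' z w := by
    ext x
    simp [rot_apply, mul_assoc]

theorem t_NOZ : S_NOZ := by
  rintro G _ ⟨S, ε, hε, hT⟩ χ g0
  by_contra hne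
  set n : G → ℤ := fun g => Multiplicative.toAdd (χ g) with hn
  have hn0 : n g0 ≠ 0 := by
    intro h
    exact hne (Multiplicative.toAdd.injective h)
  set M : ℝ := ∑ s ∈ S, |(n s : ℝ)| + |(n g0 : ℝ)| with hM
  have hg0 : (0 : ℝ) < |(n g0 : ℝ)| := abs_pos.mpr (by exact_mod_cast hn0)
  have hsum : (0 : ℝ) ≤ ∑ s ∈ S, |(n s : ℝ)| := Finset.sum_nonneg fun _ _ => abs_nonneg _
  have hMpos : 0 < M := by rw [hM]; linarith
  set θ : ℝ := min ε 1 / (2 * M) with hθ
  have hmin : (0 : ℝ) < min ε 1 := lt_min hε one_pos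
  have hθpos : 0 < θ := by rw [hθ]; positivity
  have hθM : θ * M = min ε 1 / 2 := by
    rw [hθ]; field_simp
  have hs : ∀ s ∈ S, |θ * (n s : ℝ)| < ε := by
    intro s hs
    have h1 : |(n s : ℝ)| ≤ M := by
      rw [hM]
      have := Finset.single_le_sum (f := fun s => |(n s : ℝ)|) (fun _ _ => abs_nonneg _) hs
      have h2 : |(n s : ℝ)| ≤ ∑ s ∈ S, |(n s : ℝ)| := this
      linarith
    rw [abs_mul, abs_of_pos hθpos]
    calc θ * |(n s : ℝ)| ≤ θ * M := mul_le_mul_of_nonneg_left h1 hθpos.le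
      _ = min ε 1 / 2 := hθM
      _ < min ε 1 := by linarith
      _ ≤ ε := min_le_left _ _
  have h0 : |θ * (n g0 : ℝ)| < 1 := by
    have h1 : |(n g0 : ℝ)| ≤ M := by rw [hM]; linarith
    rw [abs_mul, abs_of_pos hθpos]
    calc θ * |(n g0 : ℝ)| ≤ θ * M := mul_le_mul_of_nonneg_left h1 hθpos.le
      _ = min ε 1 / 2 := hθM
      _ < min ε 1 := by linarith
      _ ≤ 1 := min_le_right _ _
  set π : G →* (ℂ ≃ₗᵢ[ℂ] ℂ) := rotHom.comp ((zpowersHom Circle (Circle.exp θ)).comp χ) with hπ
  have hπ1 : ∀ (g : G) (z : ℂ), π g z = Complex.exp (Complex.I * ((θ * (n g : ℝ) : ℝ) : ℂ)) * z := by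
    intro g z
    have e : π g z = (((Circle.exp θ) ^ (n g) : Circle) : ℂ) * z := rfl
    rw [e, Circle.coe_zpow, Circle.coe_exp, ← Complex.exp_int_mul]
    congr 2
    push_cast
    ring
  obtain ⟨u, hu0, hu⟩ := hT ℂ π ⟨1, by simp, fun s hs' => by
    rw [hπ1, mul_one]
    exact (Real.norm_exp_I_mul_ofReal_sub_one_le).trans_lt (by
      rw [Real.norm_eq_abs]; exact hs s hs')⟩
  have h1 := hu g0
  rw [hπ1] at h1
  have h2 : Complex.exp (Complex.I * ((θ * (n g0 : ℝ) : ℝ) : ℂ)) = 1 := by
    have := mul_right_cancel₀ hu0 (h1.trans (one_mul u).symm)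
    exact this
  rw [Complex.exp_eq_one_iff] at h2
  obtain ⟨k, hk⟩ := h2
  have hk' : (θ * (n g0 : ℝ) : ℝ) = k * (2 * Real.pi) := by
    have hI : Complex.I * ((θ * (n g0 : ℝ) : ℝ) : ℂ) = Complex.I * ((k * (2 * Real.pi) : ℝ) : ℂ) := by
      rw [hk]; push_cast; ring
    have := mul_left_cancel₀ Complex.I_ne_zero hI
    exact_mod_cast this
  have hk0 : k = 0 := by
    by_contra hk0
    have h3 : (1 : ℝ) ≤ |(k : ℝ)| := by
      have : (1 : ℤ) ≤ |k| := Int.one_le_abs hk0
      exact_mod_cast this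
    rw [hk', abs_mul, abs_of_pos Real.two_pi_pos] at h0
    have := Real.pi_gt_three
    nlinarith
  rw [hk0] at hk'
  have : θ * (n g0 : ℝ) = 0 := by simpa using hk'
  rcases mul_eq_zero.mp this with h | h
  · exact hθpos.ne' h
  · exact hn0 (by exact_mod_cast h)

theorem t_ONTO : S_NOZ → S_ONTO := by
  intro hNOZ G _ _ hT hS K _ δ hker q
  have hnotfin : ¬ Finite δ.range := by
    intro hfin
    have hG : (Set.univ : Set G).Finite := by
      apply Set.Finite.of_finite_fibers (f := fun g => δ g)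
      · exact (Set.toFinite (δ.range : Set (G ⧸ K))).subset (by
          rintro _ ⟨g, -, rfl⟩
          exact ⟨g, rfl⟩)
      · intro x _
        by_cases hx : ∃ g0, δ g0 = x
        · obtain ⟨g0, rfl⟩ := hx
          apply (hker.image (fun k => g0 * k)).subset
          rintro g ⟨-, hg⟩
          refine ⟨g0⁻¹ * g, ?_, by simp⟩
          show δ (g0⁻¹ * g) = 1
          rw [map_mul, map_inv, show δ g = δ g0 from hg, inv_mul_cancel]
        · convert Set.finite_empty
          ext g
          simp only [Set.mem_inter_iff, Set.mem_univ, true_and, Set.mem_preimage,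
            Set.mem_singleton_iff, Set.mem_empty_iff_false, iff_false]
          exact fun h => hx ⟨g, h⟩
    exact Set.infinite_univ hG
  by_cases hR : δ.range.comap (QuotientGroup.mk' K) = ⊤
  · obtain ⟨g, rfl⟩ := QuotientGroup.mk'_surjective K q
    have : g ∈ δ.range.comap (QuotientGroup.mk' K) := by rw [hR]; trivial
    exact this
  · exfalso
    set R := δ.range.comap (QuotientGroup.mk' K) with hRdef
    -- the surjection `R → δ.range`
    let f : R →* δ.range :=
      ((QuotientGroup.mk' K).comp R.subtype).codRestrict δ.range (fun x => x.2)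
    have hf : Function.Surjective f := by
      rintro ⟨y, hy⟩
      obtain ⟨g, rfl⟩ := QuotientGroup.mk'_surjective K y
      exact ⟨⟨g, hy⟩, rfl⟩
    rcases hS R hR with hfin | hcyc
    · exact hnotfin (Finite.of_surjective f hf)
    · have hc : IsCyclic δ.range := isCyclic_of_surjective f hf
      have : Infinite δ.range := not_finite_iff_infinite.mp hnotfin
      let e : Multiplicative ℤ ≃* δ.range := intCyclicMulEquiv
      let χ : G →* Multiplicative ℤ := e.symm.toMonoidHom.comp δ.rangeRestrict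
      obtain ⟨g, hg⟩ := δ.rangeRestrict_surjective (e (Multiplicative.ofAdd 1))
      have h1 := hNOZ G hT χ g
      have h2 : χ g = Multiplicative.ofAdd 1 := by
        show e.symm (δ.rangeRestrict g) = _
        rw [hg, MulEquiv.symm_apply_apply]
      rw [h2] at h1
      exact absurd (congrArg Multiplicative.toAdd h1) (by simp)

end Pool.Agent.Run7.h420.TM
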